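import Mathlib

set_option autoImplicit false

namespace Pool.Agent.H721Z.FC

open MvPolynomial

/-- A Frobenius splitting upstairs makes all ideals downstairs Frobenius closed. -/
theorem closed_of_split {S C : Type} [CommRing S] [CommRing C] (w : S →+* C) (G : Submonoid S)
    (hG : ∀ s ∈ G, IsUnit (w s)) (hsurj : ∀ z : C, ∃ a, ∃ s ∈ G, z * w s = w a)
    (M : Ideal S) (hM : ∀ f ∈ M, w f = 0) (hker : ∀ f, w f = 0 → ∃ s ∈ G, s * f ∈ M)
    (φ : S →+ S) (hφ : ∀ a b, φ (a ^ 2 * b) = a * φ b) (h1 : φ 1 = 1)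
    (hφM : ∀ f ∈ M, φ f ∈ M) (I : Ideal C) (r : C) (e : ℕ)
    (hr : r ^ (2 ^ e) ∈ Ideal.span ((fun a => a ^ (2 ^ e)) '' (I : Set C))) : r ∈ I := by
  set I0 : Ideal S := I.comap w with hI0
  let K : ℕ → Ideal S := fun e => Ideal.span ((fun a => a ^ (2 ^ e)) '' (I0 : Set S)) ⊔ M
  have hK : ∀ e, ∀ z ∈ K (e + 1), φ z ∈ K e := by
    intro e z hz
    obtain ⟨y, hy, u, hu, rfl⟩ := Submodule.mem_sup.1 hz
    rw [map_add]
    refine Ideal.add_mem _ ?_ (Ideal.mem_sup_right (hφM u hu))
    have : ∀ t, φ (t * y) ∈ K e := by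
      clear hz
      induction hy using Submodule.span_induction with
      | mem x hx =>
        obtain ⟨c, hc, rfl⟩ := hx
        intro t
        have : t * c ^ (2 ^ (e + 1)) = (c ^ (2 ^ e)) ^ 2 * t := by ring
        simp only []
        rw [this, hφ]
        exact Ideal.mul_mem_right _ _ (Ideal.mem_sup_left (Ideal.subset_span ⟨c, hc, rfl⟩))
      | zero => intro t; simp
      | add x y _ _ hx hy =>
        intro t
        rw [mul_add, map_add]
        exact Ideal.add_mem _ (hx t) (hy t)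
      | smul a x _ hx =>
        intro t
        rw [smul_eq_mul, ← mul_assoc]
        exact hx _
    simpa using this 1
  have step1 : ∀ e a, a ^ (2 ^ e) ∈ K e → a ∈ I0 := by
    intro e
    induction e with
    | zero =>
      intro a ha
      have : K 0 ≤ I0 := by
        refine sup_le (Ideal.span_le.2 ?_) fun f hf => ?_
        · rintro _ ⟨c, hc, rfl⟩; simpa using hc
        · rw [hI0, Ideal.mem_comap, hM f hf]; exact I.zero_mem
      simpa using this ha
    | succ e ih =>
      intro a ha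
      apply ih
      have := hK e _ ha
      rwa [show a ^ (2 ^ (e + 1)) = (a ^ (2 ^ e)) ^ 2 * 1 by ring, hφ, h1, mul_one] at this
  have step2 : ∀ z ∈ Ideal.span ((fun a => a ^ (2 ^ e)) '' (I : Set C)),
      ∃ a ∈ K e, ∃ s ∈ G, z * w s = w a := by
    intro z hz
    induction hz using Submodule.span_induction with
    | mem x hx =>
      obtain ⟨c, hc, rfl⟩ := hx
      obtain ⟨a, s, hs, h⟩ := hsurj c
      refine ⟨a ^ (2 ^ e), Ideal.mem_sup_left (Ideal.subset_span ⟨a, ?_, rfl⟩), s ^ (2 ^ e),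
        G.pow_mem hs _, by simp only [map_pow, ← h, mul_pow]⟩
      show w a ∈ I
      rw [← h]; exact I.mul_mem_right _ hc
    | zero => exact ⟨0, Ideal.zero_mem _, 1, G.one_mem, by simp⟩
    | add x y _ _ hx hy =>
      obtain ⟨a, ha, s, hs, h⟩ := hx
      obtain ⟨a', ha', s', hs', h'⟩ := hy
      refine ⟨a * s' + a' * s, Ideal.add_mem _ (Ideal.mul_mem_right _ _ ha)
        (Ideal.mul_mem_right _ _ ha'), s * s', G.mul_mem hs hs', ?_⟩
      simp only [map_add, map_mul, ← h, ← h']; ring
    | smul c x _ hx =>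
      obtain ⟨a, ha, s, hs, h⟩ := hx
      obtain ⟨a', s', hs', h'⟩ := hsurj c
      refine ⟨a' * a, Ideal.mul_mem_left _ _ ha, s * s', G.mul_mem hs hs', ?_⟩
      simp only [smul_eq_mul, map_mul, ← h, ← h']; ring
  obtain ⟨a', ha', s', hs', h'⟩ := step2 _ hr
  obtain ⟨a, s, hs, h⟩ := hsurj r
  obtain ⟨t, ht, htM⟩ := hker (a ^ (2 ^ e) * s' - s ^ (2 ^ e) * a') (by
    simp only [map_sub, map_mul, map_pow, ← h, ← h']; ring)
  have k1 : (t * s') * a ^ (2 ^ e) ∈ K e := by
    have : (t * s') * a ^ (2 ^ e) =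
        t * (a ^ (2 ^ e) * s' - s ^ (2 ^ e) * a') + (t * s ^ (2 ^ e)) * a' := by ring
    rw [this]
    exact Ideal.add_mem _ (Ideal.mem_sup_right htM) (Ideal.mul_mem_left _ _ ha')
  have k2 : (t * s' * a) ^ (2 ^ e) ∈ K e := by
    obtain ⟨n, hn⟩ : ∃ n, 2 ^ e = n + 1 := ⟨2 ^ e - 1, by have := Nat.one_le_two_pow (n := e); omega⟩
    have : (t * s' * a) ^ (2 ^ e) = (t * s') ^ n * ((t * s') * a ^ (2 ^ e)) := by
      rw [mul_pow (t * s'), ← mul_assoc, ← pow_succ, ← hn]
    rw [this]
    exact Ideal.mul_mem_left _ _ k1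
  have k3 : w (t * s' * a) ∈ I := step1 e _ k2
  rw [map_mul, ← h, mul_comm r, ← mul_assoc, ← map_mul] at k3
  exact (Ideal.unit_mul_mem_iff_mem I (hG _ (G.mul_mem (G.mul_mem ht hs') hs))).1 k3

/-- the polynomial ring -/
abbrev S : Type := MvPolynomial (Fin 6) (ZMod 2)

/-- halving exponents -/
noncomputable def half (m : Fin 6 →₀ ℕ) : Fin 6 →₀ ℕ := m.mapRange (· / 2) (by simp)

theorem half_two (m : Fin 6 →₀ ℕ) : half (2 • m) = m := by
  ext i; simp [half]

/-- the monomial splitting -/
noncomputable def spl : S →ₗ[ZMod 2] S :=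
  (basisMonomials (Fin 6) (ZMod 2)).constr (ZMod 2) fun m =>
    if 2 • half m = m then monomial (half m) 1 else 0

theorem spl_monomial (m : Fin 6 →₀ ℕ) (c : ZMod 2) :
    spl (monomial m c) = if 2 • half m = m then monomial (half m) c else 0 := by
  have : (monomial m c : S) = c • basisMonomials (Fin 6) (ZMod 2) m := by
    simp [smul_monomial]
  rw [this, map_smul, spl, Module.Basis.constr_basis]
  split_ifs <;> simp [smul_monomial]

theorem coeff_spl (g : Fin 6 →₀ ℕ) (f : S) : coeff g (spl f) = coeff (2 • g) f := by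
  classical
  induction f using MvPolynomial.induction_on' with
  | monomial m c =>
    rw [spl_monomial, coeff_monomial]
    by_cases h : m = 2 • g
    · subst h; simp [half_two]
    · rw [if_neg h]
      split_ifs with h2
      · rw [coeff_monomial, if_neg]
        rintro rfl
        exact h h2.symm
      · simp
  | add p q hp hq => simp [hp, hq]

theorem spl_mul (a b : S) : spl (a ^ 2 * b) = a * spl b := by
  classical
  induction a using MvPolynomial.induction_on' with
  | monomial m c =>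
    ext g
    rw [coeff_spl, monomial_pow, coeff_monomial_mul', coeff_monomial_mul', coeff_spl]
    have e1 : (2 • m ≤ 2 • g) ↔ m ≤ g := by
      simp only [Finsupp.le_def, Finsupp.smul_apply, smul_eq_mul]
      exact forall_congr' fun i => by omega
    have e2 : 2 • g - 2 • m = 2 • (g - m) := by
      ext i; simp only [Finsupp.tsub_apply, Finsupp.smul_apply, smul_eq_mul]; omega
    have e3 : c ^ 2 = c := ZMod.pow_card c
    simp only [e1, e2, e3]
  | add p q hp hq => rw [CharTwo.add_sq, add_mul, map_add, hp, hq, add_mul]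

theorem spl_one : spl 1 = 1 := by
  have : (1 : S) = monomial (2 • 0) 1 := by simp
  rw [this, spl_monomial, half_two]; simp

theorem spl_span (s : Set (Fin 6)) (f : S) (hf : f ∈ Ideal.span (X '' s : Set S)) :
    spl f ∈ Ideal.span (X '' s : Set S) := by
  rw [mem_ideal_span_X_image] at hf ⊢
  intro m hm
  rw [mem_support_iff, coeff_spl, ← mem_support_iff] at hm
  obtain ⟨i, hi, h⟩ := hf _ hm
  exact ⟨i, hi, by simpa using h⟩

end Pool.Agent.H721Z.FC
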