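import Mathlib
import Pool.Agent.H721Z.FC.Split

set_option autoImplicit false

namespace Pool.Agent.H721Z.FC

open MvPolynomial

/-- the images of the variables on the four components -/
noncomputable def sv : Fin 4 → Fin 6 → S :=
  ![![X 0, X 1, X 2, X 3, 0, 0], ![0, X 1, X 2, 0, X 4, X 5],
    ![0, X 2 ^ 2, X 2, X 3, X 4, X 5], ![X 0, 0, X 2, 0, X 4, X 5]]

/-- the substitutions -/
noncomputable def sg (i : Fin 4) : S →ₐ[ZMod 2] S := aeval (sv i)

/-- the defining ideal -/
noncomputable def J : Ideal S := ⨅ i, RingHom.ker (sg i : S →+* S)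

theorem mem_J (f : S) : f ∈ J ↔ ∀ i, sg i f = 0 := by
  simp [J, RingHom.mem_ker]

theorem cc_aeval (v : Fin 6 → S) (hv : ∀ n, constantCoeff (v n) = 0) (f : S) :
    constantCoeff (aeval v f) = constantCoeff f := by
  induction f using MvPolynomial.induction_on with
  | C a => simp
  | add p q hp hq => simp only [map_add, hp, hq]
  | mul_X p n hp => simp [hv]

theorem cc_sv (i : Fin 4) (n : Fin 6) : constantCoeff (sv i n) = 0 := by
  fin_cases i <;> fin_cases n <;> simp [sv]

theorem cc_sg (i : Fin 4) (f : S) : constantCoeff (sg i f) = constantCoeff f :=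
  cc_aeval _ (cc_sv i) f

/-- the constant term on the quotient -/
noncomputable def c0 : S ⧸ J →+* ZMod 2 :=
  Ideal.Quotient.lift J constantCoeff (fun f hf => by
    rw [← cc_sg 0, (mem_J f).1 hf 0, map_zero])

/-- the maximal ideal of the origin -/
noncomputable def m0 : Ideal (S ⧸ J) := RingHom.ker c0

instance : m0.IsPrime := RingHom.ker_isPrime _

/-- the local ring -/
def R : Type := Localization.AtPrime m0

noncomputable instance : CommRing R := inferInstanceAs (CommRing (Localization.AtPrime m0))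

noncomputable instance : Algebra (S ⧸ J) R :=
  inferInstanceAs (Algebra (S ⧸ J) (Localization.AtPrime m0))

instance : IsLocalization.AtPrime R m0 :=
  inferInstanceAs (IsLocalization.AtPrime (Localization.AtPrime m0) m0)

instance : IsLocalRing R := IsLocalization.AtPrime.isLocalRing R m0

instance : IsNoetherianRing R := IsLocalization.isNoetherianRing m0.primeCompl R inferInstance

/-- the structure map -/
noncomputable def pr : S →+* R := (algebraMap (S ⧸ J) R).comp (Ideal.Quotient.mk J)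

theorem mem_compl (s : S) : Ideal.Quotient.mk J s ∈ m0.primeCompl ↔ constantCoeff s ≠ 0 := by
  simp [Ideal.primeCompl, m0, RingHom.mem_ker, c0]

theorem sg_ne (i : Fin 4) (s : S) (hs : constantCoeff s ≠ 0) : sg i s ≠ 0 := by
  intro h
  apply hs
  rw [← cc_sg i, h, map_zero]

theorem pr_eq_zero (f : S) : pr f = 0 ↔ f ∈ J := by
  constructor
  · intro h
    obtain ⟨⟨t, ht⟩, h⟩ := (IsLocalization.map_eq_zero_iff m0.primeCompl R _).1 h
    obtain ⟨s, rfl⟩ := Ideal.Quotient.mk_surjective t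
    rw [mem_compl] at ht
    replace h : s * f ∈ J := Ideal.Quotient.eq_zero_iff_mem.1 (by rw [map_mul]; exact h)
    rw [mem_J] at h ⊢
    intro i
    have := h i
    rw [map_mul] at this
    exact (mul_eq_zero.1 this).resolve_left (sg_ne i s ht)
  · intro h
    simp [pr, Ideal.Quotient.eq_zero_iff_mem.2 h]

theorem pr_unit (s : S) (hs : constantCoeff s ≠ 0) : IsUnit (pr s) :=
  IsLocalization.map_units R (⟨_, (mem_compl s).2 hs⟩ : m0.primeCompl)

theorem pr_surj (z : R) : ∃ a s : S, constantCoeff s ≠ 0 ∧ z * pr s = pr a := by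
  obtain ⟨⟨a, ⟨t, ht⟩⟩, h⟩ := IsLocalization.surj m0.primeCompl z
  obtain ⟨s, rfl⟩ := Ideal.Quotient.mk_surjective t
  obtain ⟨a, rfl⟩ := Ideal.Quotient.mk_surjective a
  exact ⟨a, s, (mem_compl s).1 ht, h⟩

theorem pr_mem_max (f : S) : pr f ∈ IsLocalRing.maximalIdeal R ↔ constantCoeff f = 0 := by
  have := IsLocalization.AtPrime.to_map_mem_maximal_iff R m0 (Ideal.Quotient.mk J f)
  refine this.trans ?_
  simp [m0, RingHom.mem_ker, c0]

instance : CharP R 2 := by
  refine (CharP.charP_iff_prime_eq_zero Nat.prime_two).2 ?_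
  have : ((2 : ℕ) : R) = pr ((2 : ℕ) : S) := (map_natCast pr 2).symm
  rw [this, CharP.cast_eq_zero, map_zero]

/-- primes of `R` attached to substitutions -/
theorem exists_prime (σ : S →ₐ[ZMod 2] S) (hσ : ∀ f, constantCoeff (σ f) = constantCoeff f)
    (hJ : ∀ f ∈ J, σ f = 0) : ∃ Q : Ideal R, Q.IsPrime ∧ ∀ f, pr f ∈ Q ↔ σ f = 0 := by
  let g : S ⧸ J →+* FractionRing S := Ideal.Quotient.lift J
    ((algebraMap S (FractionRing S)).comp (σ : S →+* S)) (fun f hf => by simp [hJ f hf])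
  have hg : ∀ y : m0.primeCompl, IsUnit (g y) := by
    rintro ⟨t, ht⟩
    obtain ⟨s, rfl⟩ := Ideal.Quotient.mk_surjective t
    rw [mem_compl] at ht
    simp only [g, Ideal.Quotient.lift_mk, RingHom.comp_apply, isUnit_iff_ne_zero, ne_eq,
      FaithfulSMul.algebraMap_eq_zero_iff, RingHom.coe_coe]
    intro h
    apply ht
    rw [← hσ, h, map_zero]
  refine ⟨RingHom.ker (IsLocalization.lift (S := R) hg), RingHom.ker_isPrime _, fun f => ?_⟩
  rw [RingHom.mem_ker, pr, RingHom.comp_apply, IsLocalization.lift_eq]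
  simp [g]

theorem le_of_pr {Q Q' : Ideal R} (h : ∀ f, pr f ∈ Q → pr f ∈ Q') : Q ≤ Q' := by
  intro z hz
  obtain ⟨a, s, hs, e⟩ := pr_surj z
  have : pr a ∈ Q' := h a (e ▸ Q.mul_mem_right _ hz)
  rw [← e] at this
  exact (Ideal.mul_unit_mem_iff_mem Q' (pr_unit s hs)).1 this

theorem exists_comp (Q : Ideal R) (hQ : Q.IsPrime) : ∃ i, ∀ f, sg i f = 0 → pr f ∈ Q := by
  by_contra hc
  push Not at hc
  choose f hf hfQ using hc
  have : pr (∏ i, f i) = 0 := by
    rw [pr_eq_zero, mem_J]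
    intro i
    rw [map_prod]
    exact Finset.prod_eq_zero (Finset.mem_univ i) (hf i)
  rw [map_prod] at this
  obtain ⟨i, -, hi⟩ := (Ideal.IsPrime.prod_mem_iff (p := Q)).1 (this ▸ Q.zero_mem)
  exact hfQ i hi

/-- free variables of the components -/
def fv : Fin 4 → Fin 4 → Fin 6 := ![![0, 1, 2, 3], ![1, 2, 4, 5], ![2, 3, 4, 5], ![0, 2, 4, 5]]

theorem fv_inj (i : Fin 4) : Function.Injective (fv i) := by revert i; decide

theorem sg_fv (i j : Fin 4) : sg i (X (fv i j)) = X (fv i j) := by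
  fin_cases i <;> fin_cases j <;> simp [sg, sv, fv]

/-- killing the first `k` free variables -/
noncomputable def kill (i : Fin 4) (k : ℕ) : S →ₐ[ZMod 2] S :=
  aeval fun n => if ∃ j : Fin 4, (j : ℕ) < k ∧ fv i j = n then 0 else X n

theorem kill_kill (i : Fin 4) (k : ℕ) (f : S) : kill i (k + 1) (kill i k f) = kill i (k + 1) f := by
  have : (kill i (k + 1)).comp (kill i k) = kill i (k + 1) := by
    ext1 n
    simp only [kill, AlgHom.comp_apply, aeval_X]
    by_cases h : ∃ j : Fin 4, (j : ℕ) < k ∧ fv i j = n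
    · rw [if_pos h, if_pos, map_zero]
      obtain ⟨j, a, b⟩ := h
      exact ⟨j, by omega, b⟩
    · rw [if_neg h, aeval_X]
  exact congrArg (fun g : S →ₐ[ZMod 2] S => g f) this

theorem four_le_dim (P : Ideal R) (hP : P ∈ minimalPrimes R) :
    (4 : WithBot ℕ∞) ≤ ringKrullDim (R ⧸ P) := by
  obtain ⟨i, hi⟩ := exists_comp P hP.1.1
  have hex : ∀ k : ℕ, ∃ Q : Ideal R, Q.IsPrime ∧ ∀ f, pr f ∈ Q ↔ kill i k (sg i f) = 0 := by
    intro k
    refine exists_prime ((kill i k).comp (sg i)) (fun f => ?_) (fun f hf => ?_)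
    · rw [AlgHom.comp_apply, kill, cc_aeval, cc_sg]
      intro n; split_ifs <;> simp
    · rw [AlgHom.comp_apply, (mem_J f).1 hf i, map_zero]
  choose Q hQp hQ using hex
  have hlt : ∀ k : Fin 4, Q k < Q (k + 1) := by
    intro k
    refine lt_of_le_of_ne (le_of_pr fun f hf => ?_) fun e => ?_
    · rw [hQ] at hf ⊢
      rw [← kill_kill, hf, map_zero]
    · have h1 : pr (X (fv i k)) ∈ Q (k + 1) := by
        rw [hQ, sg_fv, kill, aeval_X, if_pos ⟨k, by omega, rfl⟩]
      rw [← e, hQ, sg_fv, kill, aeval_X, if_neg] at h1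
      · exact X_ne_zero _ h1
      · rintro ⟨j, a, b⟩
        rw [fv_inj i b] at a
        omega
  have hP0 : P ≤ Q 0 := by
    refine hP.2 ⟨hQp 0, bot_le⟩ (le_of_pr fun f hf => hi f ?_)
    rw [hQ] at hf
    have : kill i 0 = AlgHom.id _ _ := by
      ext1 n; simp [kill]
    simpa [this] using hf
  have hPk : ∀ k : ℕ, k ≤ 4 → P ≤ Q k := by
    intro k
    induction k with
    | zero => exact fun _ => hP0
    | succ k ih => exact fun h => (ih (by omega)).trans (hlt ⟨k, by omega⟩).le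
  rw [ringKrullDim_quotient]
  let p : LTSeries (PrimeSpectrum.zeroLocus (R := R) (P : Set R)) :=
    { length := 4
      toFun := fun k => ⟨⟨Q k, hQp k⟩, hPk k (by omega)⟩
      step := fun k => by
        have := hlt k
        simpa [← PrimeSpectrum.asIdeal_lt_asIdeal, ← Subtype.coe_lt_coe] using this }
  exact Order.LTSeries.length_le_krullDim p

/-- the parameters -/
noncomputable def par : Fin 4 → S := ![X 0 + X 3 + X 1, X 2 ^ 2, X 1 + X 4, X 5 + X 0 * X 3]

theorem max_le (Q : Ideal R) (hQ : Q.IsPrime) (h : ∀ j, pr (par j) ∈ Q) :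
    IsLocalRing.maximalIdeal R ≤ Q := by
  obtain ⟨i, hi⟩ := exists_comp Q hQ
  set Q0 : Ideal S := Q.comap pr with hQ0
  have hp : Q0.IsPrime := Ideal.comap_isPrime _ _
  have p0 : X 0 + X 3 + X 1 ∈ Q0 := h 0
  have p1 : X 2 ^ 2 ∈ Q0 := h 1
  have p2 : X 1 + X 4 ∈ Q0 := h 2
  have p3 : X 5 + X 0 * X 3 ∈ Q0 := h 3
  have x2 : X 2 ∈ Q0 := hp.mem_of_pow_mem _ p1
  have hi' : ∀ f, sg i f = 0 → f ∈ Q0 := hi
  have fin : X 0 ∈ Q0 → X 3 ∈ Q0 → ∀ n, X n ∈ Q0 := by
    intro x0 x3 n
    have x1 : X 1 ∈ Q0 := (Ideal.add_mem_iff_right Q0 (Q0.add_mem x0 x3)).1 p0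
    have x4 : X 4 ∈ Q0 := (Ideal.add_mem_iff_right Q0 x1).1 p2
    have x5 : X 5 ∈ Q0 := (Ideal.add_mem_iff_left Q0 (Q0.mul_mem_right _ x0)).1 p3
    fin_cases n <;> assumption
  have fin2 : X 1 ∈ Q0 → (X 0 ∈ Q0 ∨ X 3 ∈ Q0) → ∀ n, X n ∈ Q0 := by
    intro x1 h03
    have x03 : X 0 + X 3 ∈ Q0 := (Ideal.add_mem_iff_left Q0 x1).1 p0
    rcases h03 with a | a
    · exact fin a ((Ideal.add_mem_iff_right Q0 a).1 x03)
    · exact fin ((Ideal.add_mem_iff_left Q0 a).1 x03) a
  have hX : ∀ n, X n ∈ Q0 := by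
    fin_cases i
    · have x4 : X 4 ∈ Q0 := hi' _ (by simp [sg, sv])
      have x5 : X 5 ∈ Q0 := hi' _ (by simp [sg, sv])
      exact fin2 ((Ideal.add_mem_iff_left Q0 x4).1 p2)
        (hp.mem_or_mem ((Ideal.add_mem_iff_right Q0 x5).1 p3))
    · exact fin (hi' _ (by simp [sg, sv])) (hi' _ (by simp [sg, sv]))
    · have x1 : X 1 - X 2 ^ 2 ∈ Q0 := hi' _ (by simp [sg, sv])
      exact fin2 (by simpa using Q0.add_mem x1 p1) (Or.inl (hi' _ (by simp [sg, sv])))
    · exact fin2 (hi' _ (by simp [sg, sv])) (Or.inr (hi' _ (by simp [sg, sv])))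
  refine le_of_pr fun f hf => ?_
  rw [pr_mem_max] at hf
  have h1 : ∀ f : S, f - C (constantCoeff f) ∈ Q0 := by
    intro f
    induction f using MvPolynomial.induction_on with
    | C a => simp
    | add p q hp hq =>
      have := Q0.add_mem hp hq
      rw [map_add, map_add]
      convert this using 1; ring
    | mul_X p n _ => simpa using Q0.mul_mem_left p (hX n)
  have := h1 f
  rw [hf, map_zero, sub_zero] at this
  exact this

theorem par_le : Ideal.span (Set.range fun j => pr (par j)) ≤ IsLocalRing.maximalIdeal R := by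
  rw [Ideal.span_le]
  rintro _ ⟨j, rfl⟩
  refine (pr_mem_max _).2 ?_
  fin_cases j <;> simp [par]

theorem par_radical :
    (Ideal.span (Set.range fun j => pr (par j))).radical = IsLocalRing.maximalIdeal R := by
  refine le_antisymm ((Ideal.IsPrime.radical_le_iff inferInstance).2 par_le) ?_
  rw [Ideal.radical_eq_sInf]
  refine le_sInf ?_
  rintro Q ⟨h1, h2⟩
  exact max_le Q h2 fun j => h1 (Ideal.subset_span ⟨j, rfl⟩)

theorem dim_le_four : ringKrullDim R ≤ 4 := by
  rw [← IsLocalRing.maximalIdeal_height_eq_ringKrullDim]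
  have h1 : IsLocalRing.maximalIdeal R ∈
      (Ideal.span (Set.range fun j => pr (par j))).minimalPrimes :=
    ⟨⟨inferInstance, par_le⟩, fun Q hQ _ =>
      max_le Q hQ.1 fun j => hQ.2 (Ideal.subset_span ⟨j, rfl⟩)⟩
  have h2 := Ideal.height_le_card_of_mem_minimalPrimes_span (Set.finite_range _) h1
  have h3 : (Set.range fun j => pr (par j)).ncard ≤ 4 := by
    rw [← Set.image_univ]
    exact (Set.ncard_image_le (Set.finite_univ)).trans (by simp [Set.ncard_univ])
  have h4 : (IsLocalRing.maximalIdeal R).height ≤ 4 := h2.trans (by exact_mod_cast h3)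
  exact WithBot.coe_le_coe.2 h4

theorem equidim (P : Ideal R) (hP : P ∈ minimalPrimes R) :
    ringKrullDim (R ⧸ P) = ringKrullDim R :=
  le_antisymm (ringKrullDim_quotient_le P) (dim_le_four.trans (four_le_dim P hP))

theorem dim_eq : ringKrullDim R = 4 := by
  obtain ⟨P, hP, -⟩ := Ideal.exists_minimalPrimes_le (I := (⊥ : Ideal R))
    (J := IsLocalRing.maximalIdeal R) bot_le
  exact le_antisymm dim_le_four ((four_le_dim P hP).trans (ringKrullDim_quotient_le P))

theorem Y_cancel (f : S) (h : X 2 * f ∈ J) : f ∈ J := by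
  rw [mem_J] at h ⊢
  intro i
  have := h i
  rw [map_mul] at this
  refine (mul_eq_zero.1 this).resolve_left ?_
  fin_cases i <;> simp [sg, sv]

theorem Y_nzd : pr (X 2) ∈ nonZeroDivisors R := by
  rw [mem_nonZeroDivisors_iff_left]
  intro z hz
  obtain ⟨a, s, hs, e⟩ := pr_surj z
  have : pr (X 2 * a) = 0 := by rw [map_mul, ← e, ← mul_assoc, hz, zero_mul]
  have h2 := (pr_eq_zero _).2 (Y_cancel a ((pr_eq_zero _).1 this))
  rw [h2] at e
  exact (pr_unit s hs).mul_left_eq_zero.1 e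

end Pool.Agent.H721Z.FC
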