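import Mathlib
import Pool.Agent.H721Z.FC.Ring

set_option autoImplicit false

namespace Pool.Agent.H721Z.FC

open MvPolynomial

/-- variable sets of the components of the special fibre -/
def sq : Fin 4 → Set (Fin 6) := ![{2, 4, 5}, {0, 2, 3}, {0, 1, 2}, {1, 2, 3}]

/-- the monomial ideal of the special fibre -/
noncomputable def M : Ideal S := ⨅ i, Ideal.span (X '' sq i : Set S)

theorem mem_M (f : S) : f ∈ M ↔ ∀ i, f ∈ Ideal.span (X '' sq i : Set S) := by simp [M]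

theorem sub_sg (i : Fin 4) (f : S) : f - sg i f ∈ Ideal.span (X '' sq i : Set S) := by
  set Q := Ideal.span (X '' sq i : Set S)
  have hX : ∀ n ∈ sq i, X n ∈ Q := fun n hn => Ideal.subset_span ⟨n, hn, rfl⟩
  have hn : ∀ n, X n - sg i (X n) ∈ Q := by
    intro n
    have h2 : X 2 ∈ Q := hX 2 (by fin_cases i <;> simp [sq])
    fin_cases i <;> fin_cases n <;> simp [sg, sv] <;>
      first
        | exact hX _ (by simp [sq])
        | exact Q.sub_mem (hX _ (by simp [sq])) (Q.pow_mem_of_mem h2 2 (by norm_num))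
  induction f using MvPolynomial.induction_on with
  | C a => simp [sg]
  | add p q hp hq =>
    have := Q.add_mem hp hq
    rw [map_add]
    convert this using 1; ring
  | mul_X p n hp =>
    have := Q.add_mem (Q.mul_mem_right (X n) hp) (Q.mul_mem_left (sg i p) (hn n))
    rw [map_mul]
    convert this using 1; ring

theorem J_le_M : J ≤ M := by
  intro f hf
  rw [mem_M]
  intro i
  have := sub_sg i f
  rwa [(mem_J f).1 hf i, sub_zero] at this

theorem Y_mem_M : X 2 ∈ M := by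
  rw [mem_M]
  intro i
  exact Ideal.subset_span ⟨2, by fin_cases i <;> simp [sq], rfl⟩

/-- the explicit relations -/
noncomputable def J0 : Ideal S := Ideal.span
  {X 4 * X 0 * X 1, X 4 * X 0 * X 3, X 4 * X 3 * (X 1 - X 2 ^ 2),
    X 5 * X 0 * X 1, X 5 * X 0 * X 3, X 5 * X 3 * (X 1 - X 2 ^ 2)}

theorem J0_le_J : J0 ≤ J := by
  rw [J0, Ideal.span_le]
  intro f hf
  simp only [Set.mem_insert_iff, Set.mem_singleton_iff] at hf
  rw [SetLike.mem_coe, mem_J]
  intro i
  rcases hf with rfl | rfl | rfl | rfl | rfl | rfl <;> fin_cases i <;> simp [sg, sv]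

theorem dvd3 (m : Fin 6 →₀ ℕ) (c : ZMod 2) (i j k : Fin 6) (hij : i ≠ j) (hik : i ≠ k)
    (hjk : j ≠ k) (hi : m i ≠ 0) (hj : m j ≠ 0) (hk : m k ≠ 0) :
    (X i * X j * X k : S) ∣ monomial m c := by
  have : (X i * X j * X k : S) =
      monomial (Finsupp.single i 1 + Finsupp.single j 1 + Finsupp.single k 1) 1 := by
    simp [X, monomial_mul]
  rw [this, monomial_dvd_monomial]
  refine ⟨Or.inr ?_, one_dvd _⟩
  intro n
  simp only [Finsupp.add_apply, Finsupp.single_apply]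
  split_ifs <;> subst_vars <;> omega

theorem M_le : M ≤ J0 ⊔ Ideal.span {X 2} := by
  intro f hf
  rw [mem_M] at hf
  simp only [mem_ideal_span_X_image] at hf
  rw [f.as_sum]
  refine Ideal.sum_mem _ fun m hm => ?_
  set K : Ideal S := J0 ⊔ Ideal.span {X 2}
  have hY : X 2 ∈ K := Ideal.mem_sup_right (Ideal.subset_span rfl)
  by_cases h2 : m 2 ≠ 0
  · exact Ideal.mem_of_dvd _ (X_dvd_monomial.2 (Or.inr h2)) hY
  push Not at h2
  have a0 := hf 0 m hm
  have a1 := hf 1 m hm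
  have a2 := hf 2 m hm
  have a3 := hf 3 m hm
  simp [sq, h2] at a0 a1 a2 a3
  have g : ∀ f ∈ ({X 4 * X 0 * X 1, X 4 * X 0 * X 3, X 4 * X 3 * (X 1 - X 2 ^ 2),
    X 5 * X 0 * X 1, X 5 * X 0 * X 3, X 5 * X 3 * (X 1 - X 2 ^ 2)} : Set S), f ∈ K :=
    fun f hf => Ideal.mem_sup_left (Ideal.subset_span hf)
  have g1 : X 4 * X 0 * X 1 ∈ K := g _ (by simp)
  have g2 : X 4 * X 0 * X 3 ∈ K := g _ (by simp)
  have g3 : X 4 * X 3 * X 1 ∈ K := by
    have := K.add_mem (g (X 4 * X 3 * (X 1 - X 2 ^ 2)) (by simp))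
      (K.mul_mem_left (X 4 * X 3 * X 2) hY)
    convert this using 1; ring
  have g4 : X 5 * X 0 * X 1 ∈ K := g _ (by simp)
  have g5 : X 5 * X 0 * X 3 ∈ K := g _ (by simp)
  have g6 : X 5 * X 3 * X 1 ∈ K := by
    have := K.add_mem (g (X 5 * X 3 * (X 1 - X 2 ^ 2)) (by simp))
      (K.mul_mem_left (X 5 * X 3 * X 2) hY)
    convert this using 1; ring
  have key : (m 0 ≠ 0 ∧ m 1 ≠ 0) ∨ (m 0 ≠ 0 ∧ m 3 ≠ 0) ∨ (m 3 ≠ 0 ∧ m 1 ≠ 0) := by tauto
  rcases a0 with a | a <;> rcases key with b | b | b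
  · exact Ideal.mem_of_dvd _ (dvd3 m _ 4 0 1 (by decide) (by decide) (by decide) a b.1 b.2) g1
  · exact Ideal.mem_of_dvd _ (dvd3 m _ 4 0 3 (by decide) (by decide) (by decide) a b.1 b.2) g2
  · exact Ideal.mem_of_dvd _ (dvd3 m _ 4 3 1 (by decide) (by decide) (by decide) a b.1 b.2) g3
  · exact Ideal.mem_of_dvd _ (dvd3 m _ 5 0 1 (by decide) (by decide) (by decide) a b.1 b.2) g4
  · exact Ideal.mem_of_dvd _ (dvd3 m _ 5 0 3 (by decide) (by decide) (by decide) a b.1 b.2) g5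
  · exact Ideal.mem_of_dvd _ (dvd3 m _ 5 3 1 (by decide) (by decide) (by decide) a b.1 b.2) g6

theorem J_step (f : S) (hf : f ∈ J) : ∃ j ∈ J0, ∃ g ∈ J, f = j + X 2 * g := by
  obtain ⟨j, hj, y, hy, e⟩ := Submodule.mem_sup.1 (M_le (J_le_M hf))
  obtain ⟨g, rfl⟩ := Ideal.mem_span_singleton'.1 hy
  refine ⟨j, hj, g, Y_cancel g ?_, by rw [← e]; ring⟩
  have := J.sub_mem hf (J0_le_J hj)
  rw [← e] at this
  convert this using 1; ring

theorem quot_closed (I : Ideal (R ⧸ Ideal.span {pr (X 2)})) (r : R ⧸ Ideal.span {pr (X 2)})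
    (e : ℕ) (hr : r ^ (2 ^ e) ∈ Ideal.span ((fun a => a ^ (2 ^ e)) ''
      (I : Set (R ⧸ Ideal.span {pr (X 2)})))) : r ∈ I := by
  let G : Submonoid S := (nonZeroDivisors (ZMod 2)).comap (constantCoeff : S →+* ZMod 2)
  have hG : ∀ s, s ∈ G ↔ constantCoeff s ≠ 0 := by
    intro s; simp [G]
  refine closed_of_split ((Ideal.Quotient.mk _).comp pr) G
    (fun s hs => (pr_unit s ((hG s).1 hs)).map (Ideal.Quotient.mk _)) ?_ M ?_ ?_ spl.toAddMonoidHom spl_mul spl_one
    ?_ I r e hr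
  · intro z
    obtain ⟨z, rfl⟩ := Ideal.Quotient.mk_surjective z
    obtain ⟨a, s, hs, h⟩ := pr_surj z
    exact ⟨a, s, (hG s).2 hs, by simp only [RingHom.comp_apply, ← map_mul, h]⟩
  · intro f hf
    obtain ⟨j, hj, y, hy, rfl⟩ := Submodule.mem_sup.1 (M_le hf)
    obtain ⟨g, rfl⟩ := Ideal.mem_span_singleton'.1 hy
    rw [RingHom.comp_apply, Ideal.Quotient.eq_zero_iff_mem, map_add,
      (pr_eq_zero j).2 (J0_le_J hj), zero_add, map_mul]
    exact Ideal.mul_mem_left _ _ (Ideal.subset_span rfl)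
  · intro f hf
    rw [RingHom.comp_apply, Ideal.Quotient.eq_zero_iff_mem] at hf
    obtain ⟨z, hz⟩ := Ideal.mem_span_singleton'.1 hf
    obtain ⟨a, s, hs, h⟩ := pr_surj z
    refine ⟨s, (hG s).2 hs, ?_⟩
    have : s * f - a * X 2 ∈ J := by
      rw [← pr_eq_zero, map_sub, map_mul, map_mul, ← hz, ← h]; ring
    have := M.add_mem (J_le_M this) (M.mul_mem_left a Y_mem_M)
    simpa using this
  · intro f hf
    rw [mem_M] at hf ⊢
    exact fun i => spl_span _ f (hf i)

/-- the test element -/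
noncomputable def rho : S := X 2 * X 3 * X 5

theorem frob_mem : pr rho ^ (2 ^ 1) ∈ Ideal.span ((fun a => a ^ (2 ^ 1)) ''
    ((Ideal.span (Set.range fun j => pr (par j)) : Ideal R) : Set R)) := by
  set K := Ideal.span ((fun a => a ^ (2 ^ 1)) ''
    ((Ideal.span (Set.range fun j => pr (par j)) : Ideal R) : Set R))
  have hp : ∀ j, pr (par j ^ 2) ∈ K := fun j =>
    Ideal.subset_span ⟨pr (par j), Ideal.subset_span ⟨j, rfl⟩, by simp⟩
  have e : rho ^ 2 - (X 5 ^ 2 * X 1 * par 0 ^ 2 + X 5 ^ 2 * X 1 * par 2 ^ 2 +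
      X 1 * X 4 ^ 2 * par 3 ^ 2) ∈ J := by
    rw [mem_J]
    intro i
    have h2 : (2 : S) = 0 := CharTwo.two_eq_zero
    fin_cases i <;> simp [sg, sv, rho, par]
    · linear_combination (-(X 5 ^ 2 * X 1 ^ 3) - X 5 ^ 2 * X 1 ^ 2 * X 4
        - X 1 * X 4 ^ 2 * X 5 ^ 2) * h2
    · linear_combination (-(X 5 ^ 2 * X 2 ^ 4 * X 3) - X 5 ^ 2 * X 2 ^ 6 - X 5 ^ 2 * X 2 ^ 4 * X 4
        - X 2 ^ 2 * X 4 ^ 2 * X 5 ^ 2) * h2
  rw [← pr_eq_zero, map_sub, sub_eq_zero] at e
  rw [pow_one, ← map_pow, e, map_add, map_add, map_mul _ _ (par 0 ^ 2), map_mul _ _ (par 2 ^ 2),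
    map_mul _ _ (par 3 ^ 2)]
  exact K.add_mem (K.add_mem (K.mul_mem_left _ (hp 0)) (K.mul_mem_left _ (hp 2)))
    (K.mul_mem_left _ (hp 3))

/-- dual numbers over a polynomial ring -/
abbrev Dn : Type := DualNumber (Polynomial (ZMod 2))

/-- the image of `Z` -/
noncomputable def zz : Dn := TrivSqZeroExt.inl Polynomial.X

theorem zz_fst : zz.fst = Polynomial.X := rfl

theorem zz_pow (n : ℕ) : zz ^ n = TrivSqZeroExt.inl (Polynomial.X ^ n) := by
  rw [zz, TrivSqZeroExt.inl_pow]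

/-- the test homomorphism -/
noncomputable def psi : S →ₐ[ZMod 2] Dn :=
  aeval ![zz, 0, DualNumber.eps, zz, 0, zz ^ 2]

theorem psi_par (j : Fin 4) : psi (par j) = 0 := by
  have h2 : (2 : Dn) = 0 := by
    have : (2 : Dn) = psi 2 := (map_ofNat psi 2).symm
    rw [this, (CharTwo.two_eq_zero : (2 : S) = 0), map_zero]
  fin_cases j <;> simp [psi, par]
  · linear_combination zz * h2
  · linear_combination zz ^ 2 * h2

theorem psi_J0 (f : S) (hf : f ∈ J0) :
    psi f ∈ Ideal.span {zz ^ 4} := by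
  have : J0 ≤ Ideal.comap (psi : S →+* Dn)
      (Ideal.span {zz ^ 4}) := by
    rw [J0, Ideal.span_le]
    intro f hf
    simp only [Set.mem_insert_iff, Set.mem_singleton_iff] at hf
    rw [SetLike.mem_coe, Ideal.mem_comap, RingHom.coe_coe]
    rcases hf with rfl | rfl | rfl | rfl | rfl | rfl <;> simp [psi]
    exact Ideal.mem_span_singleton'.2 ⟨1, by ring⟩
  exact this hf

theorem psi_J (f : S) (hf : f ∈ J) :
    psi f ∈ Ideal.span {zz ^ 4} := by
  obtain ⟨j, hj, g, hg, rfl⟩ := J_step f hf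
  obtain ⟨j', hj', g', -, rfl⟩ := J_step g hg
  have : psi (X 2) * psi (X 2) = 0 := by simp [psi]
  rw [map_add, map_mul, map_add, map_mul, mul_add, ← mul_assoc, this, zero_mul, add_zero]
  exact Ideal.add_mem _ (psi_J0 j hj) (Ideal.mul_mem_left _ _ (psi_J0 j' hj'))

theorem psi_cc (f : S) : (psi f).fst.coeff 0 = constantCoeff f := by
  induction f using MvPolynomial.induction_on with
  | C a => simp [psi, TrivSqZeroExt.algebraMap_eq_inl']
  | add p q hp hq => simp [hp, hq]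
  | mul_X p n _ =>
    rw [map_mul, TrivSqZeroExt.fst_mul, Polynomial.mul_coeff_zero, map_mul, constantCoeff_X,
      mul_zero]
    have : (psi (X n)).fst.coeff 0 = 0 := by fin_cases n <;> simp [psi, zz_fst]
    rw [this, mul_zero]

theorem rho_notMem : pr rho ∉ (Ideal.span (Set.range fun j => pr (par j)) : Ideal R) := by
  intro h
  have key : ∀ z ∈ (Ideal.span (Set.range fun j => pr (par j)) : Ideal R),
      ∃ a s : S, psi a = 0 ∧ constantCoeff s ≠ 0 ∧ z * pr s = pr a := by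
    intro z hz
    induction hz using Submodule.span_induction with
    | mem x hx =>
      obtain ⟨j, rfl⟩ := hx
      exact ⟨par j, 1, psi_par j, by simp, by simp⟩
    | zero => exact ⟨0, 1, by simp, by simp, by simp⟩
    | add x y _ _ hx hy =>
      obtain ⟨a, s, ha, hs, h⟩ := hx
      obtain ⟨a', s', ha', hs', h'⟩ := hy
      refine ⟨a * s' + a' * s, s * s', by simp [ha, ha'], by simp [hs, hs'], ?_⟩
      simp only [map_add, map_mul, ← h, ← h']; ring
    | smul c x _ hx =>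
      obtain ⟨a, s, ha, hs, h⟩ := hx
      obtain ⟨a', s', hs', h'⟩ := pr_surj c
      refine ⟨a' * a, s * s', by simp [ha], by simp [hs, hs'], ?_⟩
      simp only [smul_eq_mul, map_mul, ← h, ← h']; ring
  obtain ⟨a, s, ha, hs, e⟩ := key _ h
  have h1 : rho * s - a ∈ J := by rw [← pr_eq_zero, map_sub, map_mul, e, sub_self]
  have h2 := psi_J _ h1
  rw [map_sub, ha, sub_zero, map_mul] at h2
  obtain ⟨b, hb⟩ := Ideal.mem_span_singleton'.1 h2
  have h3 := congrArg TrivSqZeroExt.snd hb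
  have e1 : psi rho = TrivSqZeroExt.inr (Polynomial.X ^ 3) := by
    have : psi rho = DualNumber.eps * zz ^ 3 := by simp [psi, rho]; ring
    rw [this, zz_pow]
    ext1 <;> simp
  rw [e1, zz_pow] at h3
  simp only [DualNumber.snd_mul, TrivSqZeroExt.fst_inl, TrivSqZeroExt.snd_inl, mul_zero,
    zero_add, TrivSqZeroExt.fst_inr, TrivSqZeroExt.snd_inr, zero_mul] at h3
  have h4 := congrArg (fun p => Polynomial.coeff p 3) h3
  simp only [Polynomial.coeff_mul_X_pow', Polynomial.coeff_X_pow_mul'] at h4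
  simp [psi_cc] at h4
  exact hs h4.symm

end Pool.Agent.H721Z.FC
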